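import Pool.Agent.H.MP_0d0865_co.AG.Sub

/-!
# Asm: decomposition of all triples of an affine space

PROOF. For every submodule `U` of rank 1 or 2 choose the data `I U`, `A U i`, `φ U i` of `dec_sub`. Let `W U` be a
complement (`Submodule.exists_isCompl`). The index type is `Σ U : {U // rank 1 or 2}, I U`, the cycles of the factor
`(U, i)` are indexed by `W U × A U i`, and the bijection is `((w, a), x) ↦ w + φ U i (a, x)`
(`Submodule.prodEquivOfIsCompl`). By `T3_image` and `dir_image` the triple of this factor at `((w, a), x)` is `w + s'`,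
`s' = T3 (φ U i) (a, x)`, of cardinality 3, with the direction `U` (`dir p s' = ⊤`, `Submodule.map_subtype_top`).
Existence: let `s` be a triple, `U = dir p s` (`dir_rank`), `a ∈ s`, `a = w + u`, `w ∈ W U`, `u ∈ U`; all elements of
`s` are in `w + U`, so `s = w + s'` for a finset `s'` of `U` (`s.attach.image ..` or a preimage); `s'` has cardinality 3 and
the direction `⊤` (as the image of `dir p s'` under the inclusion is `U`). Uniqueness: `U` is the direction of `s`; then `w` is
determined by `W U ⊓ U = ⊥`, then `s'`, then `i, a, x`.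
-/

set_option autoImplicit false

namespace Pool.Agent.H.MP_0d0865_co.AG

variable {p : ℕ} [Fact p.Prime] {V : Type} [AddCommGroup V] [Module (ZMod p) V] [DecidableEq V]
  [Finite V]

private theorem Asm_inj (U : Submodule (ZMod p) V) (w : V) :
    Function.Injective (fun u : U => w + U.subtype u) := by
  intro a b h
  have h' : w + (a : V) = w + (b : V) := h
  exact Subtype.ext (add_left_cancel h')

/-- The triple of a translated cycle. -/
private theorem Asm_dir (U : Submodule (ZMod p) V) (w : V) (s' : Finset U) (h : Spn p s') :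
    (s'.image fun u : U => w + U.subtype u).card = 3 ∧
      dir p (s'.image fun u : U => w + U.subtype u) = U := by
  refine ⟨?_, ?_⟩
  · rw [Finset.card_image_of_injective _ (Asm_inj U w)]
    exact h.1
  · rw [dir_image, h.2, Submodule.map_subtype_top]

theorem asm (h1 : Dec p (ZMod p) (Spn p)) (h2 : Dec p (ZMod p × ZMod p) (Spn p)) :
    Dec p V (fun s => s.card = 3) := by
  classical
  have hfin : Finite (Submodule (ZMod p) V) :=
    Finite.of_injective (fun U => (U : Set V)) SetLike.coe_injective
  let _ : Fintype V := Fintype.ofFinite V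
  have hd := fun U : {U : Submodule (ZMod p) V //
    Module.finrank (ZMod p) U = 1 ∨ Module.finrank (ZMod p) U = 2} => dec_sub h1 h2 U.1 U.2
  simp only [Dec] at hd
  choose I iI A iA φ hS hU using hd
  choose W hW using fun U : {U : Submodule (ZMod p) V //
    Module.finrank (ZMod p) U = 1 ∨ Module.finrank (ZMod p) U = 2} => exists_isCompl U.1
  let e : ∀ U : {U : Submodule (ZMod p) V //
      Module.finrank (ZMod p) U = 1 ∨ Module.finrank (ZMod p) U = 2}, (W U × U.1) ≃ V :=
    fun U => (Submodule.prodEquivOfIsCompl (W U) U.1 (hW U).symm).toEquiv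
  have he : ∀ U w u, e U (w, u) = (w : V) + (u : V) := fun U w u =>
    Submodule.coe_prodEquivOfIsCompl' (W U) U.1 (hW U).symm (w, u)
  let Φ : ∀ x : (Σ U : {U : Submodule (ZMod p) V //
      Module.finrank (ZMod p) U = 1 ∨ Module.finrank (ZMod p) U = 2}, I U),
      (W x.1 × A x.1 x.2) × ZMod p ≃ V :=
    fun x => (Equiv.prodAssoc _ _ _).trans
      ((Equiv.prodCongr (Equiv.refl _) (φ x.1 x.2)).trans (e x.1))
  have hΦ : ∀ U i w a x, Φ ⟨U, i⟩ ((w, a), x) = (w : V) + U.1.subtype (φ U i (a, x)) := by
    intro U i w a x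
    exact he U w (φ U i (a, x))
  have hT : ∀ U i w a x, T3 (Φ ⟨U, i⟩) ((w, a), x) =
      (T3 (φ U i) (a, x)).image (fun u : U.1 => (w : V) + U.1.subtype u) := by
    intro U i w a x
    exact T3_image (φ U i) (fun u : U.1 => (w : V) + U.1.subtype u) (Φ ⟨U, i⟩) a (w, a) x
      (fun y => hΦ U i w a y)
  let _ : Fintype {U : Submodule (ZMod p) V //
    Module.finrank (ZMod p) U = 1 ∨ Module.finrank (ZMod p) U = 2} := Fintype.ofFinite _
  let _ : ∀ U, Fintype (I U) := iI
  let _ : ∀ U i, Fintype (A U i) := iA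
  refine ⟨(Σ U : {U : Submodule (ZMod p) V //
    Module.finrank (ZMod p) U = 1 ∨ Module.finrank (ZMod p) U = 2}, I U), inferInstance,
    fun x => W x.1 × A x.1 x.2, fun x => inferInstance, Φ, ?_, ?_⟩
  · rintro ⟨U, i⟩ ⟨⟨w, a⟩, x⟩
    change (T3 (Φ ⟨U, i⟩) ((w, a), x)).card = 3
    rw [hT]
    exact (Asm_dir U.1 w _ (hS U i (a, x))).1
  · intro s hs
    have hs3 : s.card = 3 := hs
    obtain ⟨U, hU0⟩ : ∃ U : {U : Submodule (ZMod p) V //
      Module.finrank (ZMod p) U = 1 ∨ Module.finrank (ZMod p) U = 2}, U.1 = dir p s :=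
      ⟨⟨_, dir_rank hs3⟩, rfl⟩
    obtain ⟨a0, ha0⟩ : s.Nonempty := by
      rw [← Finset.card_pos, hs3]
      norm_num
    obtain ⟨⟨w, u⟩, hwu⟩ := (e U).surjective a0
    rw [he] at hwu
    have hmem : ∀ y ∈ s, y - (w : V) ∈ U.1 := by
      intro y hy
      have h3 : y - a0 ∈ U.1 := by
        rw [hU0]
        exact Submodule.subset_span ⟨y, hy, a0, ha0, rfl⟩
      have h4 := U.1.add_mem h3 u.2
      rw [← hwu] at h4
      have h5 : y - ((w : V) + (u : V)) + (u : V) = y - (w : V) := by abel
      rwa [h5] at h4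
    have hs' : ∃ s' : Finset U.1, s'.image (fun u : U.1 => (w : V) + U.1.subtype u) = s := by
      refine ⟨Finset.univ.filter (fun u : U.1 => (w : V) + (u : V) ∈ s), ?_⟩
      ext y
      simp only [Finset.mem_image, Finset.mem_filter, Finset.mem_univ, true_and,
        Submodule.subtype_apply]
      constructor
      · rintro ⟨u', hu', rfl⟩
        exact hu'
      · intro hy
        exact ⟨⟨y - (w : V), hmem y hy⟩, by simpa using hy, by simp⟩
    obtain ⟨s', hs'⟩ := hs'
    have hspn : Spn p s' := by
      refine ⟨?_, ?_⟩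
      · rw [← hs3, ← hs', Finset.card_image_of_injective _ (Asm_inj U.1 w)]
      · apply Submodule.map_injective_of_injective U.1.injective_subtype
        rw [← dir_image U.1.subtype (w : V) s', hs', Submodule.map_subtype_top, hU0]
    obtain ⟨⟨i, ⟨a, x⟩⟩, hx, hux⟩ := hU U s' hspn
    refine ⟨⟨⟨U, i⟩, ((w, a), x)⟩, ?_, ?_⟩
    · change s = T3 (Φ ⟨U, i⟩) ((w, a), x)
      rw [hT, ← hs']
      exact congrArg _ hx
    · rintro ⟨⟨U', i'⟩, ⟨⟨w', a'⟩, x'⟩⟩ hz
      have hz' : s = T3 (Φ ⟨U', i'⟩) ((w', a'), x') := hz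
      rw [hT] at hz'
      have hUU : U' = U := by
        apply Subtype.ext
        rw [hU0, hz']
        exact (Asm_dir U'.1 w' _ (hS U' i' (a', x'))).2.symm
      subst hUU
      have hw : w' = w := by
        have hm : (w' : V) + U'.1.subtype (φ U' i' (a', x')) ∈ s := by
          rw [hz']
          exact Finset.mem_image_of_mem _ (by simp [T3])
        rw [← hs', Finset.mem_image] at hm
        obtain ⟨u', -, hu'⟩ := hm
        have h6 : e U' (w, u') = e U' (w', φ U' i' (a', x')) := by
          rw [he, he]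
          exact hu'
        have h7 := (e U').injective h6
        exact (congrArg Prod.fst h7).symm
      subst hw
      have h8 : s' = T3 (φ U' i') (a', x') :=
        Finset.image_injective (Asm_inj U'.1 w') (hs'.trans hz')
      have h9 := hux ⟨i', (a', x')⟩ h8
      simp only [Sigma.mk.injEq] at h9 
      obtain ⟨h10, h11⟩ := h9
      subst h10
      have h12 := eq_of_heq h11
      rw [Prod.mk.injEq] at h12
      obtain ⟨rfl, rfl⟩ := h12
      rfl

end Pool.Agent.H.MP_0d0865_co.AG
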