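import Mathlib

/-!
# MP_0d0865_co, affine spaces: definitions of the proof
-/

set_option autoImplicit false

namespace Pool.Agent.H.MP_0d0865_co.AG

/-- The triple at the place `q` of the cycles `φ`. -/
def T3 {p : ℕ} {A V : Type} [DecidableEq V] (φ : A × ZMod p → V) (q : A × ZMod p) : Finset V :=
  {φ q, φ (q.1, q.2 + 1), φ (q.1, q.2 + 2)}

/-- The directions of a set. -/
def dir (p : ℕ) [Fact p.Prime] {V : Type} [AddCommGroup V] [Module (ZMod p) V] (s : Finset V) :
    Submodule (ZMod p) V :=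
  Submodule.span (ZMod p) {v | ∃ x ∈ s, ∃ y ∈ s, v = x - y}

/-- The triples which span the space. -/
def Spn (p : ℕ) [Fact p.Prime] {V : Type} [AddCommGroup V] [Module (ZMod p) V] (s : Finset V) :
    Prop := s.card = 3 ∧ dir p s = ⊤

/-- The triples with the property `S` decompose into factors which consist of cycles of length `p`. -/
def Dec (p : ℕ) (V : Type) [DecidableEq V] (S : Finset V → Prop) : Prop :=
  ∃ (I : Type) (_ : Fintype I) (A : I → Type) (_ : ∀ i, Fintype (A i))
    (φ : ∀ i, A i × ZMod p ≃ V), (∀ i q, S (T3 (φ i) q)) ∧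
      ∀ s, S s → ∃! x : (Σ i, A i × ZMod p), s = T3 (φ x.1) x.2

/-- The determinant. -/
def det {p : ℕ} (u v : ZMod p × ZMod p) : ZMod p := u.1 * v.2 - u.2 * v.1

/-- The six pairs of consecutive differences of a triple. -/
def forms {p : ℕ} (u v : ZMod p × ZMod p) : List ((ZMod p × ZMod p) × (ZMod p × ZMod p)) :=
  [(u, v), (v, -u - v), (-u - v, u), (-v, -u), (u + v, -v), (-u, u + v)]

/-- The consecutive differences of the cycle `P j` at the place `x`. -/
def df {p N : ℕ} (P : Fin N → ZMod p → ZMod p × ZMod p) (j : Fin N) (x : ZMod p) :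
    (ZMod p × ZMod p) × (ZMod p × ZMod p) :=
  (P j (x + 1) - P j x, P j (x + 2) - P j (x + 1))

/-- The finite data for the plane: the cycles `P j`, transversal to the direction `w j`; `t j` is a
vector of another direction. -/
structure Dat (p N : ℕ) (P : Fin N → ZMod p → ZMod p × ZMod p)
    (w t : Fin N → ZMod p × ZMod p) : Prop where
  ex : ∀ u v : ZMod p × ZMod p, det u v ≠ 0 → ∃ j x, df P j x ∈ forms u v
  un : ∀ j x j' x', df P j' x' ∈ forms (df P j x).1 (df P j x).2 → j = j' ∧ x = x'
  nc : ∀ j x, det (df P j x).1 (df P j x).2 ≠ 0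
  tr : ∀ j x x', det (w j) (P j x) = det (w j) (P j x') → x = x'
  wt : ∀ j, det (w j) (t j) ≠ 0

/-- The complete `k`-graph on `n` vertices decomposes into copies of the disjoint union of tight
cycles of lengths `ℓ i` (the conclusion of the frozen statement S07169, word for word). -/
def Dcp (k n : ℕ) {m : ℕ} (ℓ : Fin m → ℕ) : Prop :=
  ∃ r : ℕ, ∃ φ : Fin r → ((Σ i : Fin m, ZMod (ℓ i)) ↪ Fin n),
    ∀ s : Finset (Fin n), s.card = k →
      ∃! p : Fin r × (Σ i : Fin m, ZMod (ℓ i)),
        s = (Finset.range k).image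
          (fun j : ℕ => φ p.1 ⟨p.2.1, p.2.2 + (j : ZMod (ℓ p.2.1))⟩)

end Pool.Agent.H.MP_0d0865_co.AG
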