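import Pool.Agent.H.MP_0d0865_co.AG.Def

/-!
# Five: the finite data for the plane over the field with 5 elements

The numbers encode the tables of the cycles, of the directions and of the index of the cycle in which the
triple with given consecutive differences occurs.
-/

set_option autoImplicit false

namespace Pool.Agent.H.MP_0d0865_co.AG

/-- The code of a vector. -/
def Five.vec (c : ℕ) : ZMod 5 × ZMod 5 := ((Fin.ofNat 5 (c / 5) : Fin 5), (Fin.ofNat 5 (c % 5) : Fin 5))

/-- The cycles. -/
def Five.P (j : Fin 16) (x : ZMod 5) : ZMod 5 × ZMod 5 :=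
  Five.vec ((0x3c650c01604b08014c3d80130961002981520081130c051228600b0c80400c64cc00604a08004c21800c0941000982d201810f0c01125860120c5040 >>> (6 * (5 * j.val + (x : Fin 5).val))) % 64)

/-- The directions. -/
def Five.w (j : Fin 16) : ZMod 5 × ZMod 5 :=
  Five.vec ((0x4604604604650b50b50b50b >>> (6 * j.val)) % 64)

/-- The translations. -/
def Five.t (j : Fin 16) : ZMod 5 × ZMod 5 :=
  if (Five.w j).2 = 0 then (0, 1) else (1, 0)

/-- The index. -/
def Five.loc (u v : ZMod 5 × ZMod 5) : Fin 16 × ZMod 5 :=
  let i := (0x8014823126000703a270644800228b41c120e8001a09130884200120005e072203c46160000800101806c86151e0003a3d140045209000648600170a8004f0889476051f108002f248007812250d46c26140005a1b210004048030003434060005c07208009215070500022008d40045180f818001c8dc964d00080544418800284a1e8340021148d800001c08c0034268001e4c1c920643f0400080070006c8a310e0ac8c2c000001e3b0d12c46001b8189e13020001003171086000220604e170e0009802128006e3825800221605800083f050007c10120a83e1e15860004e000440c39268684a001d0001613190cc18050006440472309c3e001d0589e48000d0760227000660a0190000411790c5a001605c3c47000140019100308c2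70f8008e0008818724e0d094003a2682c2632198002024150007c2b0c0003e1e128006e4c0100022161c12c083f0502c0000220b884300e00030270b8689600078ec0c4f118006e080184c08001881c001b22800382b230b09a381180068480003c9839200c87e08001045e431680058170f11c003a0b13c90001a0ec044e000cc14032000044011a800001b21000402d030003434240005c07208309215070500026140006a36000b85419218444a3b0013c8400178147c3c0912892000480050011481c8824000bc00020788c2c1b2180020300e8f42a3c00000122611084620008014824e26000703a168644800228341c120e80042291b0000045180f818001c8dc964d00080544418800284a1e834001d1e124280d0401016332007c301c1611c6a2804884000000000000009054940e1e8fc260a1900c4e2b0b9183c01130a44436000000000000387a120a92864031f84c14460f09c5617110d80226148000000000001a1d1e12428400401016332387c301c160006a28048840000000000000000000000000000000000000000000000000000000000000000000 >>>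
    (9 * (125 * (u.1 : Fin 5).val + 25 * (u.2 : Fin 5).val + 5 * (v.1 : Fin 5).val + (v.2 : Fin 5).val))) % 512
  (Fin.ofNat 16 (i / 5), (Fin.ofNat 5 (i % 5) : Fin 5))

theorem Five.chkW : ∀ (j : Fin 16), det (Five.w j) (Five.t j) ≠ 0 := by
  decide +kernel

theorem Five.chkV : ∀ (j : Fin 16) (x x' : ZMod 5),
    det (Five.w j) (Five.P j x) = det (Five.w j) (Five.P j x') → x = x' := by
  decide +kernel

theorem Five.chkN : ∀ (j : Fin 16) (x : ZMod 5), det (df Five.P j x).1 (df Five.P j x).2 ≠ 0 := by
  decide +kernel

theorem Five.chkU : ∀ (j : Fin 16) (x : ZMod 5),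
    (forms (df Five.P j x).1 (df Five.P j x).2).all (fun f => decide (Five.loc f.1 f.2 = (j, x))) = true := by
  decide +kernel

theorem Five.chkE : ∀ u v : ZMod 5 × ZMod 5, det u v ≠ 0 →
    df Five.P (Five.loc u v).1 (Five.loc u v).2 ∈ forms u v := by
  decide +kernel

theorem Five.dat : Dat 5 16 Five.P Five.w Five.t where
  ex u v h := ⟨(Five.loc u v).1, (Five.loc u v).2, Five.chkE u v h⟩
  un j x j' x' h := by
    have h1 := of_decide_eq_true (List.all_eq_true.1 (Five.chkU j x) _ h)
    have h2 := of_decide_eq_true (List.all_eq_true.1 (Five.chkU j' x') (df Five.P j' x')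
      (by rw [forms]; exact List.mem_cons_self))
    have h3 := h1.symm.trans h2
    exact ⟨congrArg Prod.fst h3, congrArg Prod.snd h3⟩
  nc := Five.chkN
  tr := Five.chkV
  wt := Five.chkW

end Pool.Agent.H.MP_0d0865_co.AG
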