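import Pool.Agent.H.MP_0d0865_co.AG.Def

/-!
# Lin: the line

PROOF. `I = Fin N`, `A i = Unit`, `φ i ((), x) = Q i x`. The three elements `Q i x, Q i (x + 1), Q i (x + 2)` are distinct
(`3 < p`, so `1 ≠ 0` and `2 ≠ 0` in `ZMod p`), so the set has cardinality 3; a set with two different elements `a, b` has
`dir p s = ⊤`, as it contains `a - b ≠ 0` (a unit of the field `ZMod p`; `Ideal` or `Submodule.span_singleton` of a unit, or
directly: every `z` is `(z * (a - b)⁻¹) • (a - b)`). The rest is the hypothesis (`Finset.card_eq_three`).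
-/

set_option autoImplicit false

namespace Pool.Agent.H.MP_0d0865_co.AG

variable {p : ℕ} [Fact p.Prime]

private theorem Lin_top {s : Finset (ZMod p)} {a b : ZMod p} (ha : a ∈ s) (hb : b ∈ s)
    (hab : a ≠ b) : dir p s = ⊤ := by
  rw [eq_top_iff]
  intro z _
  have h1 : z = (z * (a - b)⁻¹) • (a - b) := by
    rw [smul_eq_mul, mul_assoc, inv_mul_cancel₀ (sub_ne_zero.2 hab), mul_one]
  rw [h1]
  exact Submodule.smul_mem _ _ (Submodule.subset_span ⟨a, ha, b, hb, rfl⟩)

/-- The line: `Q j` are the Hamilton cycles. -/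
theorem lin {N : ℕ} (h3 : 3 < p) {Q : Fin N → Equiv.Perm (ZMod p)}
    (h : ∀ a b c : ZMod p, a ≠ b → b ≠ c → a ≠ c → ∃! x : Fin N × ZMod p,
      ({a, b, c} : Finset (ZMod p)) = {Q x.1 x.2, Q x.1 (x.2 + 1), Q x.1 (x.2 + 2)}) :
    Dec p (ZMod p) (Spn p) := by
  have h1 : (1 : ZMod p) ≠ 0 := one_ne_zero
  have h2 : (2 : ZMod p) ≠ 0 := by
    intro h0
    have h4 : ((2 : ℕ) : ZMod p) = 0 := by exact_mod_cast h0
    rw [ZMod.natCast_eq_zero_iff] at h4
    have h5 := Nat.le_of_dvd (by norm_num) h4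
    omega
  refine ⟨Fin N, inferInstance, fun _ => Unit, fun _ => inferInstance,
    fun i => (Equiv.punitProd (ZMod p)).trans (Q i), ?_, ?_⟩
  · rintro i ⟨⟨⟩, x⟩
    have e1 : Q i x ≠ Q i (x + 1) := by
      intro h0
      have h4 := (Q i).injective h0
      exact h1 (by linear_combination -h4)
    have e2 : Q i x ≠ Q i (x + 2) := by
      intro h0
      have h4 := (Q i).injective h0
      exact h2 (by linear_combination -h4)
    have e3 : Q i (x + 1) ≠ Q i (x + 2) := by
      intro h0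
      have h4 := (Q i).injective h0
      exact h1 (by linear_combination -h4)
    have hT : T3 ((Equiv.punitProd (ZMod p)).trans (Q i)) ((), x) =
        {Q i x, Q i (x + 1), Q i (x + 2)} := rfl
    refine ⟨?_, ?_⟩
    · exact Finset.card_eq_three.2 ⟨_, _, _, e1, e2, e3, rfl⟩
    · refine Lin_top (a := Q i x) (b := Q i (x + 1)) ?_ ?_ e1
      · show Q i x ∈ ({Q i x, Q i (x + 1), Q i (x + 2)} : Finset (ZMod p))
        simp
      · show Q i (x + 1) ∈ ({Q i x, Q i (x + 1), Q i (x + 2)} : Finset (ZMod p))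
        simp
  · intro s hs
    obtain ⟨a, b, c, hab, hac, hbc, rfl⟩ := Finset.card_eq_three.1 hs.1
    obtain ⟨⟨j, x⟩, hx, hu⟩ := h a b c hab hbc hac
    refine ⟨⟨j, ((), x)⟩, hx, ?_⟩
    rintro ⟨j', ⟨⟨⟩, x'⟩⟩ hy
    have h4 := hu (j', x') hy
    obtain ⟨rfl, rfl⟩ := Prod.mk.inj h4
    rfl

end Pool.Agent.H.MP_0d0865_co.AG
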