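import Pool.Agent.H.MP_0d0865_co.AG.Lin

/-!
# Line: the Hamilton decompositions of the complete 3-graphs on 5 and 7 points
-/

set_option autoImplicit false

namespace Pool.Agent.H.MP_0d0865_co.AG

/-- The cycles. -/
def Five.q (j : Fin 2) (x : ZMod 5) : ZMod 5 :=
  (Fin.ofNat 5 ((0x19884688 >>> (3 * (5 * j.val + (x : Fin 5).val))) % 8) : Fin 5)

/-- The index of a triple. -/
def Five.ql (a b c : ZMod 5) : Fin 2 × ZMod 5 :=
  let i := (0x870c00801850071801000c51000000870c00000000800012470010080c02480000801850800012400000001810000052400000071801070010081810000000000001080000000c51000c0248005240000108000000000000 >>>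
    (6 * (25 * (a : Fin 5).val + 5 * (b : Fin 5).val + (c : Fin 5).val))) % 64
  (Fin.ofNat 2 (i / 5), (Fin.ofNat 5 (i % 5) : Fin 5))

theorem Five.qinj : ∀ (j : Fin 2) (x x' : ZMod 5), Five.q j x = Five.q j x' → x = x' := by
  decide +kernel

theorem Five.qE : ∀ a b c : ZMod 5, a ≠ b → b ≠ c → a ≠ c →
    ({a, b, c} : Finset (ZMod 5)) = {Five.q (Five.ql a b c).1 (Five.ql a b c).2,
      Five.q (Five.ql a b c).1 ((Five.ql a b c).2 + 1), Five.q (Five.ql a b c).1 ((Five.ql a b c).2 + 2)} := by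
  decide +kernel

theorem Five.qU : ∀ x y : Fin 2 × ZMod 5,
    ({Five.q x.1 x.2, Five.q x.1 (x.2 + 1), Five.q x.1 (x.2 + 2)} : Finset (ZMod 5)) =
      {Five.q y.1 y.2, Five.q y.1 (y.2 + 1), Five.q y.1 (y.2 + 2)} → x = y := by
  decide +kernel

theorem Five.line [Fact (Nat.Prime 5)] : Dec 5 (ZMod 5) (Spn 5) := by
  refine lin (N := 2) (by norm_num)
    (Q := fun j => Equiv.ofBijective (Five.q j) (Finite.injective_iff_bijective.1
      (fun x x' h => Five.qinj j x x' h))) ?_
  intro a b c hab hbc hac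
  exact ⟨Five.ql a b c, Five.qE a b c hab hbc hac, fun y hy =>
    Five.qU y _ (hy.symm.trans (Five.qE a b c hab hbc hac))⟩

/-- The cycles. -/
def Seven.q (j : Fin 5) (x : ZMod 7) : ZMod 7 :=
  (Fin.ofNat 7 ((0x16239898d4c435e42ad191ac688 >>> (3 * (7 * j.val + (x : Fin 7).val))) % 8) : Fin 7)

/-- The index of a triple. -/
def Seven.ql (a b c : ZMod 7) : Fin 5 × ZMod 7 :=
  let i := (0x1102d814010024a65a0102403dd7002ca3c078e01865d78018015a70e1800001102d81400000000001000038128500030164622c081601731801245700d14086230d00010024a65a1000038128400000000002430000886ca8000807d46520087c04da8406d44c00102403dd7100030164622430000886c00000000003d608000155d4480010077226c05470002ca3c078e2c081601730a8000807d43d60800015400000000007977c100000e31454000001865d78019801245700d6520087c04dd4480010077977c100000000000000018d4c700000015a70e18014086230d01a8406d44c07226c054700e31454000018d4c7000000000000000 >>>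
    (6 * (49 * (a : Fin 7).val + 7 * (b : Fin 7).val + (c : Fin 7).val))) % 64
  (Fin.ofNat 5 (i / 7), (Fin.ofNat 7 (i % 7) : Fin 7))

theorem Seven.qinj : ∀ (j : Fin 5) (x x' : ZMod 7), Seven.q j x = Seven.q j x' → x = x' := by
  decide +kernel

theorem Seven.qE : ∀ a b c : ZMod 7, a ≠ b → b ≠ c → a ≠ c →
    ({a, b, c} : Finset (ZMod 7)) = {Seven.q (Seven.ql a b c).1 (Seven.ql a b c).2,
      Seven.q (Seven.ql a b c).1 ((Seven.ql a b c).2 + 1), Seven.q (Seven.ql a b c).1 ((Seven.ql a b c).2 + 2)} := by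
  decide +kernel

theorem Seven.qU : ∀ x y : Fin 5 × ZMod 7,
    ({Seven.q x.1 x.2, Seven.q x.1 (x.2 + 1), Seven.q x.1 (x.2 + 2)} : Finset (ZMod 7)) =
      {Seven.q y.1 y.2, Seven.q y.1 (y.2 + 1), Seven.q y.1 (y.2 + 2)} → x = y := by
  decide +kernel

theorem Seven.line [Fact (Nat.Prime 7)] : Dec 7 (ZMod 7) (Spn 7) := by
  refine lin (N := 5) (by norm_num)
    (Q := fun j => Equiv.ofBijective (Seven.q j) (Finite.injective_iff_bijective.1
      (fun x x' h => Seven.qinj j x x' h))) ?_
  intro a b c hab hbc hac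
  exact ⟨Seven.ql a b c, Seven.qE a b c hab hbc hac, fun y hy =>
    Seven.qU y _ (hy.symm.trans (Seven.qE a b c hab hbc hac))⟩

end Pool.Agent.H.MP_0d0865_co.AG
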