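import Pool.Agent.H.MP_0d0865_co.AG.Def

/-!
# Out: the final form

PROOF. `V ≃ Fin n` (`Fintype.equivFinOfCardEq`), `I ≃ Fin r`, `r = card I`, and `A i ≃ Fin m` for every `i`, as
`card (A i) * p = card V = m * p`. `Σ i : Fin m, ZMod p ≃ Fin m × ZMod p` (`Equiv.sigmaEquivProd`). Compose everything; the set
`(range 3).image ..` is `{_, _, _}` (`Finset.range_succ`, `Finset.image_insert`, `simp`); a finset of `Fin n` of
cardinality 3 corresponds to one of `V` by the image under the bijection.
-/

set_option autoImplicit false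

namespace Pool.Agent.H.MP_0d0865_co.AG

theorem out {p n m : ℕ} (hp : 0 < p) {V : Type} [Fintype V] [DecidableEq V]
    (hV : Fintype.card V = n) (hn : n = m * p) (h : Dec p V (fun s => s.card = 3)) :
    Dcp 3 n (fun _ : Fin m => p) := by
  classical
  have : NeZero p := ⟨hp.ne'⟩
  obtain ⟨I, hI, A, hA, φ, h1, h2⟩ := h
  let e : V ≃ Fin n := Fintype.equivFinOfCardEq hV
  let eI : Fin (Fintype.card I) ≃ I := (Fintype.equivFin I).symm
  have cA : ∀ i, Fintype.card (A i) = m := by
    intro i
    have h3 := Fintype.card_congr (φ i)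
    rw [Fintype.card_prod, ZMod.card, hV, hn] at h3
    exact Nat.eq_of_mul_eq_mul_right hp h3
  let eA : ∀ i, Fin m ≃ A i := fun i => (Fintype.equivFinOfCardEq (cA i)).symm
  let E : Fin (Fintype.card I) × (Σ _ : Fin m, ZMod p) ≃ Σ i, A i × ZMod p :=
    Equiv.ofBijective (fun q => ⟨eI q.1, (eA (eI q.1) q.2.1, q.2.2)⟩) (by
      constructor
      · rintro ⟨i, a, z⟩ ⟨j, b, w⟩ h3
        simp only [Sigma.mk.injEq] at h3
        obtain ⟨h4, h5⟩ := h3
        have h6 := eI.injective h4
        subst h6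
        have h7 := eq_of_heq h5
        rw [Prod.mk.injEq] at h7
        obtain ⟨h8, h9⟩ := h7
        have h10 := (eA (eI i)).injective h8
        subst h10
        subst h9
        rfl
      · rintro ⟨i, a, z⟩
        obtain ⟨j, rfl⟩ := eI.surjective i
        obtain ⟨b, rfl⟩ := (eA (eI j)).surjective a
        exact ⟨(j, ⟨b, z⟩), rfl⟩)
  refine ⟨Fintype.card I, fun i => ⟨fun q => e (φ (eI i) (eA (eI i) q.1, q.2)), ?_⟩, ?_⟩
  · rintro ⟨a, z⟩ ⟨b, w⟩ hab
    have h3 := (φ (eI i)).injective (e.injective hab)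
    rw [Prod.mk.injEq] at h3
    obtain ⟨h4, h5⟩ := h3
    have h6 := (eA (eI i)).injective h4
    dsimp only at h5 h6
    subst h6
    subst h5
    rfl
  · intro s hs
    have hs' : (s.image e.symm).card = 3 := by
      rw [Finset.card_image_of_injective _ e.symm.injective, hs]
    refine (Equiv.existsUnique_congr E ?_).mpr (h2 (s.image e.symm) hs')
    intro q
    rw [← (Finset.image_injective e.symm.injective).eq_iff, Finset.image_image]
    have h3 : (Finset.range 3).image (e.symm ∘ fun j : ℕ =>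
        e (φ (eI q.1) (eA (eI q.1) q.2.1, q.2.2 + (j : ZMod p)))) = T3 (φ (E q).1) (E q).2 := by
      have hE0 : φ (E q).1 (E q).2 = φ (eI q.1) (eA (eI q.1) q.2.1, q.2.2 + ((0 : ℕ) : ZMod p)) := by
        rw [Nat.cast_zero, add_zero]
        rfl
      have hE1 : φ (E q).1 ((E q).2.1, (E q).2.2 + 1)
          = φ (eI q.1) (eA (eI q.1) q.2.1, q.2.2 + ((1 : ℕ) : ZMod p)) := by
        rw [Nat.cast_one]
        rfl
      have hE2 : φ (E q).1 ((E q).2.1, (E q).2.2 + 2)
          = φ (eI q.1) (eA (eI q.1) q.2.1, q.2.2 + ((2 : ℕ) : ZMod p)) := by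
        rw [Nat.cast_ofNat]
        rfl
      unfold T3
      rw [hE0, hE1, hE2]
      ext v
      simp only [Finset.mem_image, Finset.mem_range, Finset.mem_insert, Finset.mem_singleton,
        Function.comp_apply, Equiv.symm_apply_apply]
      constructor
      · rintro ⟨j, hj, rfl⟩
        interval_cases j
        · exact Or.inl rfl
        · exact Or.inr (Or.inl rfl)
        · exact Or.inr (Or.inr rfl)
      · rintro (rfl | rfl | rfl)
        · exact ⟨0, by norm_num, rfl⟩
        · exact ⟨1, by norm_num, rfl⟩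
        · exact ⟨2, by norm_num, rfl⟩
    exact ⟨fun h4 => h4.trans h3, fun h4 => h4.trans h3.symm⟩

end Pool.Agent.H.MP_0d0865_co.AG
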