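import Pool.Agent.H.MP_0d0865_co.AG.Def

/-!
# PlaE: existence of the translated cycle

PROOF. `u = b - a`, `v = c - b`, `det u v ≠ 0`, so `df P j x ∈ forms u v` for some `j, x` (`ex`). In each of the six cases
`(P j (x + 1) - P j x, P j (x + 2) - P j (x + 1))` is `(y1 - y0, y2 - y1)` for a permutation `(y0, y1, y2)` of `(a, b, c)`
(`(u, v)`: `(a, b, c)`; `(v, -u - v)`: `(b, c, a)`; `(-u - v, u)`: `(c, a, b)`; `(-v, -u)`: `(c, b, a)`; `(u + v, -v)`:
`(a, c, b)`; `(-u, u + v)`: `(b, a, c)`), and `τ = y0 - P j x`.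
-/

set_option autoImplicit false

namespace Pool.Agent.H.MP_0d0865_co.AG

variable {p : ℕ}

private theorem PlaE_aux {V : Type} [AddCommGroup V] [DecidableEq V] (p0 p1 p2 y0 y1 y2 : V)
    (h1 : p1 - p0 = y1 - y0) (h2 : p2 - p1 = y2 - y1) :
    ({y0, y1, y2} : Finset V) = {p0 + (y0 - p0), p1 + (y0 - p0), p2 + (y0 - p0)} := by
  have e0 : p0 + (y0 - p0) = y0 := by abel
  have e1 : p1 + (y0 - p0) = y1 := by
    have : p1 + (y0 - p0) = (p1 - p0) + y0 := by abel
    rw [this, h1]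
    abel
  have e2 : p2 + (y0 - p0) = y2 := by
    have : p2 + (y0 - p0) = (p2 - p1) + (p1 - p0) + y0 := by abel
    rw [this, h1, h2]
    abel
  rw [e0, e1, e2]

theorem pla_ex {N : ℕ} {P : Fin N → ZMod p → ZMod p × ZMod p} {w t : Fin N → ZMod p × ZMod p}
    (h : Dat p N P w t) (a b c : ZMod p × ZMod p) (hd : det (b - a) (c - b) ≠ 0) :
    ∃ j x τ, ({a, b, c} : Finset (ZMod p × ZMod p)) =
      {P j x + τ, P j (x + 1) + τ, P j (x + 2) + τ} := by
  obtain ⟨j, x, hm⟩ := h.ex (b - a) (c - b) hd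
  simp only [df, forms, List.mem_cons, Prod.mk.injEq, List.not_mem_nil, or_false] at hm
  have key : ∀ y0 y1 y2 : ZMod p × ZMod p, P j (x + 1) - P j x = y1 - y0 →
      P j (x + 2) - P j (x + 1) = y2 - y1 →
      (∀ y, y ∈ ({a, b, c} : Finset (ZMod p × ZMod p)) ↔
        y ∈ ({y0, y1, y2} : Finset (ZMod p × ZMod p))) →
      ∃ j x τ, ({a, b, c} : Finset (ZMod p × ZMod p)) =
        {P j x + τ, P j (x + 1) + τ, P j (x + 2) + τ} := by
    intro y0 y1 y2 h1 h2 h3
    refine ⟨j, x, y0 - P j x, ?_⟩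
    rw [← PlaE_aux (P j x) (P j (x + 1)) (P j (x + 2)) y0 y1 y2 h1 h2]
    exact Finset.ext h3
  rcases hm with h1 | h1 | h1 | h1 | h1 | h1
  · exact key a b c h1.1 h1.2 (fun y => Iff.rfl)
  · refine key b c a h1.1 (by rw [h1.2]; abel) (fun y => ?_)
    simp only [Finset.mem_insert, Finset.mem_singleton]
    tauto
  · refine key c a b (by rw [h1.1]; abel) h1.2 (fun y => ?_)
    simp only [Finset.mem_insert, Finset.mem_singleton]
    tauto
  · refine key c b a (by rw [h1.1]; abel) (by rw [h1.2]; abel) (fun y => ?_)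
    simp only [Finset.mem_insert, Finset.mem_singleton]
    tauto
  · refine key a c b (by rw [h1.1]; abel) (by rw [h1.2]; abel) (fun y => ?_)
    simp only [Finset.mem_insert, Finset.mem_singleton]
    tauto
  · refine key b a c (by rw [h1.1]; abel) (by rw [h1.2]; abel) (fun y => ?_)
    simp only [Finset.mem_insert, Finset.mem_singleton]
    tauto

end Pool.Agent.H.MP_0d0865_co.AG
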