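import Pool.Agent.H.MP_0d0865_co.AG.Def

/-!
# PlaU: two equal triples of translated cycles

PROOF. `y = (P j x + τ, ..)`, `z = (P j' x' + τ', ..)`; the differences do not depend on `τ`, `τ'`. The elements of each
triple are distinct by `nc`. If
`{y0, y1, y2} = {z0, z1, z2}` with distinct elements then `z` is a permutation of `y`, so `(z1 - z0, z2 - z1)` is in
`forms (y1 - y0) (y2 - y1)` (six cases); so `j = j'`, `x = x'` by `un`; the sum of the elements (`Finset.sum_insert`, or in
each of the six cases by adding the three equations) gives `3 τ = 3 τ'`, and `3 ≠ 0` in `ZMod p`.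
-/

set_option autoImplicit false

namespace Pool.Agent.H.MP_0d0865_co.AG

variable {p : ℕ} [Fact p.Prime]

private theorem PlaU_perm {a b c a' b' c' τ τ' : ZMod p × ZMod p} (hab : a' ≠ b') (hbc : b' ≠ c')
    (hac : a' ≠ c') (he : ({a + τ, b + τ, c + τ} : Finset (ZMod p × ZMod p)) =
      {a' + τ', b' + τ', c' + τ'}) :
    (b' - a', c' - b') ∈ forms (b - a) (c - b) ∧
      (a + τ) + (b + τ) + (c + τ) = (a' + τ') + (b' + τ') + (c' + τ') := by
  have m0 : a' + τ' ∈ ({a + τ, b + τ, c + τ} : Finset (ZMod p × ZMod p)) := by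
    rw [he]
    simp
  have m1 : b' + τ' ∈ ({a + τ, b + τ, c + τ} : Finset (ZMod p × ZMod p)) := by
    rw [he]
    simp
  have m2 : c' + τ' ∈ ({a + τ, b + τ, c + τ} : Finset (ZMod p × ZMod p)) := by
    rw [he]
    simp
  simp only [Finset.mem_insert, Finset.mem_singleton] at m0 m1 m2
  clear he
  rcases m0 with m0 | m0 | m0 <;> rcases m1 with m1 | m1 | m1 <;> rcases m2 with m2 | m2 | m2 <;>
  first
  | exact absurd (add_right_cancel (m0.trans m1.symm)) hab
  | exact absurd (add_right_cancel (m1.trans m2.symm)) hbc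
  | exact absurd (add_right_cancel (m0.trans m2.symm)) hac
  | (refine ⟨?_, ?_⟩
     · have e0 := eq_sub_of_add_eq m0
       have e1 := eq_sub_of_add_eq m1
       have e2 := eq_sub_of_add_eq m2
       clear m0 m1 m2
       subst e0
       subst e1
       subst e2
       simp only [forms, List.mem_cons, List.not_mem_nil, Prod.mk.injEq, or_false]
       first
       | (refine Or.inl ⟨?_, ?_⟩ <;> abel1)
       | (refine Or.inr (Or.inl ⟨?_, ?_⟩) <;> abel1)
       | (refine Or.inr (Or.inr (Or.inl ⟨?_, ?_⟩)) <;> abel1)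
       | (refine Or.inr (Or.inr (Or.inr (Or.inl ⟨?_, ?_⟩))) <;> abel1)
       | (refine Or.inr (Or.inr (Or.inr (Or.inr (Or.inl ⟨?_, ?_⟩)))) <;> abel1)
       | (refine Or.inr (Or.inr (Or.inr (Or.inr (Or.inr ⟨?_, ?_⟩)))) <;> abel1)
     · first
       | (rw [m0, m1, m2]; abel)
       | rw [m0, m1, m2])

private theorem PlaU_dist {a b c : ZMod p × ZMod p} (h : det (b - a) (c - b) ≠ 0) :
    a ≠ b ∧ b ≠ c ∧ a ≠ c := by
  refine ⟨fun e => h ?_, fun e => h ?_, fun e => h ?_⟩
  · subst e
    simp [det]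
  · subst e
    simp [det]
  · subst e
    simp only [det, Prod.fst_sub, Prod.snd_sub]
    ring

/-- The finite index of the decomposition: two equal triples of translated cycles. -/
theorem pla_un {N : ℕ} {P : Fin N → ZMod p → ZMod p × ZMod p} {w t : Fin N → ZMod p × ZMod p}
    (h3 : 3 < p) (h : Dat p N P w t) (j j' : Fin N) (x x' : ZMod p) (τ τ' : ZMod p × ZMod p)
    (he : ({P j x + τ, P j (x + 1) + τ, P j (x + 2) + τ} : Finset (ZMod p × ZMod p)) =
      {P j' x' + τ', P j' (x' + 1) + τ', P j' (x' + 2) + τ'}) : j = j' ∧ x = x' ∧ τ = τ' := by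
  have h0 := h.nc j' x'
  simp only [df] at h0
  obtain ⟨d1, d2, d3⟩ := PlaU_dist h0
  obtain ⟨hf, hsum⟩ := PlaU_perm d1 d2 d3 he
  have h1 := h.un j x j' x' hf
  obtain ⟨rfl, rfl⟩ := h1
  refine ⟨rfl, rfl, ?_⟩
  have h30 : (3 : ZMod p) ≠ 0 := by
    intro h4
    have h5 : ((3 : ℕ) : ZMod p) = 0 := by exact_mod_cast h4
    rw [ZMod.natCast_eq_zero_iff] at h5
    have h6 := Nat.le_of_dvd (by norm_num) h5
    omega
  have f1 := congrArg Prod.fst hsum
  have f2 := congrArg Prod.snd hsum
  simp only [Prod.fst_add, Prod.snd_add] at f1 f2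
  refine Prod.ext ?_ ?_
  · have h7 : (3 : ZMod p) * (τ.1 - τ'.1) = 0 := by linear_combination f1
    exact sub_eq_zero.1 ((mul_eq_zero.1 h7).resolve_left h30)
  · have h7 : (3 : ZMod p) * (τ.2 - τ'.2) = 0 := by linear_combination f2
    exact sub_eq_zero.1 ((mul_eq_zero.1 h7).resolve_left h30)

end Pool.Agent.H.MP_0d0865_co.AG
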