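import Pool.Agent.H.MP_0d0865_co.AG.PlaS
import Pool.Agent.H.MP_0d0865_co.AG.PlaU
import Pool.Agent.H.MP_0d0865_co.AG.PlaE

/-!
# Pla: the plane

PROOF. The factors are indexed by `Fin N × ZMod p` (cycle `j`, translation `y`), the cycles of a factor by `c ∈ ZMod p`:
`φ (j, y) (c, x) = P j x + c • w j + y • t j`. It is injective: apply `det (w j)` and `tr`, then `w j ≠ 0` (`wt`); so it is
bijective (`Fintype.bijective_iff_injective_and_card`, `Equiv.ofBijective`). The property `Spn` is translated by `pla_spn` (use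
`nc`, the differences of the translated cycle are those of `P j`). Existence: `pla_ex` and
`τ = c • w j + y • t j` for some `c`, `y` (`wt`, Cramer). Uniqueness: `pla_un`, then `c = c'`, `y = y'` by `wt`.
-/

set_option autoImplicit false

namespace Pool.Agent.H.MP_0d0865_co.AG

variable {p : ℕ} [Fact p.Prime]

private theorem Pla_det (w a b : ZMod p × ZMod p) (c : ZMod p) :
    det w (a + c • b) = det w a + c * det w b := by
  simp only [det, Prod.fst_add, Prod.snd_add, Prod.smul_fst, Prod.smul_snd, smul_eq_mul]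
  ring

private theorem Pla_self (w : ZMod p × ZMod p) : det w w = 0 := by
  simp only [det]
  ring

private theorem Pla_zero (w : ZMod p × ZMod p) : det w 0 = 0 := by
  simp [det]

private theorem Pla_anti (w t : ZMod p × ZMod p) : det w t = - det t w := by
  simp only [det]
  ring

/-- coordinates with respect to `w`, `t` are unique -/
private theorem Pla_uniq {w t : ZMod p × ZMod p} (h : det w t ≠ 0) {c y c' y' : ZMod p}
    (he : c • w + y • t = c' • w + y' • t) : c = c' ∧ y = y' := by
  have h1 := congrArg (det w) he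
  have h2 := congrArg (det t) he
  rw [← zero_add (c • w), ← zero_add (c' • w), Pla_det, Pla_det, Pla_det, Pla_det, Pla_self, Pla_zero]
    at h1 h2
  have h3 : det t w ≠ 0 := by
    rw [Pla_anti]
    exact neg_ne_zero.2 h
  constructor
  · have h4 : c * det t w = c' * det t w := by simpa using h2
    exact mul_right_cancel₀ h3 h4
  · have h4 : y * det w t = y' * det w t := by simpa using h1
    exact mul_right_cancel₀ h h4

private theorem Pla_ex {w t : ZMod p × ZMod p} (h : det w t ≠ 0) (τ : ZMod p × ZMod p) :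
    τ = (det τ t / det w t) • w + (det w τ / det w t) • t := by
  have key : det w t • τ = det τ t • w + det w τ • t := by
    ext
    · simp only [det, Prod.fst_add, Prod.smul_fst, smul_eq_mul]
      ring
    · simp only [det, Prod.snd_add, Prod.smul_snd, smul_eq_mul]
      ring
  have h2 : (det w t)⁻¹ • (det w t • τ) = τ := inv_smul_smul₀ h τ
  rw [key, smul_add, smul_smul, smul_smul] at h2
  rw [div_eq_inv_mul, div_eq_inv_mul]
  exact h2.symm

/-- the factor -/
private def Pla_f {N : ℕ} (P : Fin N → ZMod p → ZMod p × ZMod p) (w t : Fin N → ZMod p × ZMod p)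
    (i : Fin N × ZMod p) (q : ZMod p × ZMod p) : ZMod p × ZMod p :=
  P i.1 q.2 + (q.1 • w i.1 + i.2 • t i.1)

private theorem Pla_inj {N : ℕ} {P : Fin N → ZMod p → ZMod p × ZMod p}
    {w t : Fin N → ZMod p × ZMod p} (h : Dat p N P w t) (i : Fin N × ZMod p) :
    Function.Injective (Pla_f P w t i) := by
  intro q q' he
  have hne := h.wt i.1
  unfold Pla_f at he
  have h1 := congrArg (det (w i.1)) he
  rw [← add_assoc, ← add_assoc, Pla_det, Pla_det, Pla_det, Pla_det, Pla_self] at h1
  have h2 : det (w i.1) (P i.1 q.2) = det (w i.1) (P i.1 q'.2) := by simpa using h1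
  have h3 := h.tr i.1 q.2 q'.2 h2
  rw [h3] at he
  exact Prod.ext (Pla_uniq hne (add_left_cancel he)).1 h3

theorem pla {N : ℕ} {P : Fin N → ZMod p → ZMod p × ZMod p} {w t : Fin N → ZMod p × ZMod p}
    (h3 : 3 < p) (h : Dat p N P w t) : Dec p (ZMod p × ZMod p) (Spn p) := by
  classical
  refine ⟨Fin N × ZMod p, inferInstance, fun _ => ZMod p, fun _ => inferInstance, fun i =>
    Equiv.ofBijective (Pla_f P w t i)
      ((Fintype.bijective_iff_injective_and_card _).2 ⟨Pla_inj h i, rfl⟩), ?_, ?_⟩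
  · rintro ⟨j, y⟩ ⟨c, x⟩
    rw [pla_spn]
    refine ⟨P j x + (c • w j + y • t j), P j (x + 1) + (c • w j + y • t j),
      P j (x + 2) + (c • w j + y • t j), rfl, ?_⟩
    rw [add_sub_add_right_eq_sub, add_sub_add_right_eq_sub]
    exact h.nc j x
  · intro s hs
    rw [pla_spn] at hs
    obtain ⟨a, b, c, rfl, hd⟩ := hs
    obtain ⟨j, x, τ, he⟩ := pla_ex h a b c hd
    rw [he]
    have hτ := Pla_ex (h.wt j) τ
    obtain ⟨c0, hc0⟩ : ∃ c0, c0 = det τ (t j) / det (w j) (t j) := ⟨_, rfl⟩
    obtain ⟨y0, hy0⟩ : ∃ y0, y0 = det (w j) τ / det (w j) (t j) := ⟨_, rfl⟩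
    rw [← hc0, ← hy0] at hτ
    clear hc0 hy0 he
    subst hτ
    refine ⟨⟨(j, y0), (c0, x)⟩, rfl, ?_⟩
    rintro ⟨⟨j', y'⟩, ⟨c', x'⟩⟩ he
    have he' : ({P j x + (c0 • w j + y0 • t j), P j (x + 1) + (c0 • w j + y0 • t j),
        P j (x + 2) + (c0 • w j + y0 • t j)} : Finset (ZMod p × ZMod p)) =
        {P j' x' + (c' • w j' + y' • t j'), P j' (x' + 1) + (c' • w j' + y' • t j'),
        P j' (x' + 2) + (c' • w j' + y' • t j')} := he
    obtain ⟨rfl, rfl, h5⟩ := pla_un h3 h j j' x x' _ _ he'
    obtain ⟨rfl, rfl⟩ := Pla_uniq (h.wt j) h5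
    rfl

end Pool.Agent.H.MP_0d0865_co.AG
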