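import Pool.Agent.H.MP_0d0865_co.AG.Asm
import Pool.Agent.H.MP_0d0865_co.AG.Pla
import Pool.Agent.H.MP_0d0865_co.AG.Out
import Pool.Agent.H.MP_0d0865_co.AG.Five
import Pool.Agent.H.MP_0d0865_co.AG.Seven
import Pool.Agent.H.MP_0d0865_co.AG.Line

/-!
# Main: powers of 5 and 7
-/

set_option autoImplicit false

namespace Pool.Agent.H.MP_0d0865_co.AG

theorem powers {p : ℕ} [Fact p.Prime] (h1 : Dec p (ZMod p) (Spn p))
    (h2 : Dec p (ZMod p × ZMod p) (Spn p)) (d : ℕ) :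
    Dcp 3 (p ^ (d + 1)) (fun _ : Fin (p ^ d) => p) :=
  out (Fact.out : p.Prime).pos (V := Fin (d + 1) → ZMod p) (by simp [ZMod.card]) (pow_succ p d)
    (asm h1 h2)

theorem five_seven (p : ℕ) (hp : p = 5 ∨ p = 7) (d : ℕ) (hd : 1 ≤ d) :
    Dcp 3 (p ^ d) (fun _ : Fin (p ^ (d - 1)) => p) := by
  obtain ⟨e, rfl⟩ := Nat.exists_eq_add_of_le' hd
  rw [Nat.add_sub_cancel]
  rcases hp with rfl | rfl
  · have : Fact (Nat.Prime 5) := ⟨by norm_num⟩
    exact powers Five.line (pla (by norm_num) Five.dat) e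
  · have : Fact (Nat.Prime 7) := ⟨by norm_num⟩
    exact powers Seven.line (pla (by norm_num) Seven.dat) e

end Pool.Agent.H.MP_0d0865_co.AG
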