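import Pool.Agent.H.MP_0d0865_co.AG.Def

/-!
# PlaS: the spanning triples of the plane

PROOF. A triple `{a, b, c}` with `u = b - a`, `v = c - b`, `det u v ≠ 0` has three elements (if two are equal then `u = 0` or
`v = 0` or `u + v = 0` and the determinant is `0`), and `u`, `v` are in `dir p s`; every vector `z` is
`(det z v / det u v) • u + (det u z / det u v) • v` (Cramer), so `dir p s = ⊤`. Conversely let `s` have three elements
`a, b, c` (`Finset.card_eq_three`) and `dir p s = ⊤`; if `det u v = 0`, then all the differences of elements of `s` are in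
the kernel of the linear map `z ↦ det u z` (`u ≠ 0`), so `⊤` is in this kernel, but `det u (0, 1) = u.1` and
`det u (1, 0) = - u.2` are not both `0`.
-/

set_option autoImplicit false

namespace Pool.Agent.H.MP_0d0865_co.AG

variable {p : ℕ} [Fact p.Prime]

theorem pla_spn (s : Finset (ZMod p × ZMod p)) :
    Spn p s ↔ ∃ a b c, s = {a, b, c} ∧ det (b - a) (c - b) ≠ 0 := by
  constructor
  · rintro ⟨h3, ht⟩
    obtain ⟨a, b, c, hab, hac, hbc, rfl⟩ := Finset.card_eq_three.1 h3
    refine ⟨a, b, c, rfl, fun h0 => hab ?_⟩
    let L : (ZMod p × ZMod p) →ₗ[ZMod p] ZMod p :=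
      (b - a).1 • LinearMap.snd (ZMod p) (ZMod p) (ZMod p) -
        (b - a).2 • LinearMap.fst (ZMod p) (ZMod p) (ZMod p)
    have hL : ∀ z, L z = det (b - a) z := fun z => rfl
    have h1 : L b = L a := by
      rw [← sub_eq_zero, ← map_sub, hL]
      unfold det
      ring
    have h2 : L c = L b := by
      rw [← sub_eq_zero, ← map_sub, hL, h0]
    have h4 : ∀ x ∈ ({a, b, c} : Finset (ZMod p × ZMod p)), L x = L a := by
      intro x hx
      rw [Finset.mem_insert, Finset.mem_insert, Finset.mem_singleton] at hx
      rcases hx with rfl | rfl | rfl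
      · rfl
      · exact h1
      · exact h2.trans h1
    have h5 : dir p ({a, b, c} : Finset (ZMod p × ZMod p)) ≤ LinearMap.ker L := by
      refine Submodule.span_le.2 ?_
      rintro v ⟨x, hx, y, hy, rfl⟩
      rw [SetLike.mem_coe, LinearMap.mem_ker, map_sub, h4 x hx, h4 y hy, sub_self]
    have h6 : ∀ z, det (b - a) z = 0 := by
      intro z
      rw [← hL]
      have h7 : z ∈ dir p ({a, b, c} : Finset (ZMod p × ZMod p)) := by
        rw [ht]
        exact Submodule.mem_top
      exact LinearMap.mem_ker.1 (h5 h7)
    have h8 : (b - a).1 = 0 := by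
      have h9 := h6 (0, 1)
      unfold det at h9
      linear_combination h9
    have h10 : (b - a).2 = 0 := by
      have h9 := h6 (1, 0)
      unfold det at h9
      linear_combination -h9
    exact (sub_eq_zero.1 (Prod.ext h8 h10)).symm
  · rintro ⟨a, b, c, rfl, h0⟩
    have hab : a ≠ b := by
      rintro rfl
      apply h0
      unfold det
      simp
    have hbc : b ≠ c := by
      rintro rfl
      apply h0
      unfold det
      simp
    have hac : a ≠ c := by
      rintro rfl
      apply h0
      unfold det
      simp only [Prod.fst_sub, Prod.snd_sub]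
      ring
    refine ⟨Finset.card_eq_three.2 ⟨a, b, c, hab, hac, hbc, rfl⟩, ?_⟩
    have hu : b - a ∈ dir p ({a, b, c} : Finset (ZMod p × ZMod p)) :=
      Submodule.subset_span ⟨b, by simp, a, by simp, rfl⟩
    have hv : c - b ∈ dir p ({a, b, c} : Finset (ZMod p × ZMod p)) :=
      Submodule.subset_span ⟨c, by simp, b, by simp, rfl⟩
    rw [Submodule.eq_top_iff']
    intro z
    have hz : z = (det z (c - b) / det (b - a) (c - b)) • (b - a) +
        (det (b - a) z / det (b - a) (c - b)) • (c - b) := by
      apply Prod.ext
      · rw [Prod.fst_add, Prod.smul_fst, Prod.smul_fst, smul_eq_mul, smul_eq_mul,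
          div_mul_eq_mul_div, div_mul_eq_mul_div, ← add_div, eq_div_iff h0]
        unfold det
        ring
      · rw [Prod.snd_add, Prod.smul_snd, Prod.smul_snd, smul_eq_mul, smul_eq_mul,
          div_mul_eq_mul_div, div_mul_eq_mul_div, ← add_div, eq_div_iff h0]
        unfold det
        ring
    rw [hz]
    exact Submodule.add_mem _ (Submodule.smul_mem _ _ hu) (Submodule.smul_mem _ _ hv)

end Pool.Agent.H.MP_0d0865_co.AG
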