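import Pool.Agent.H.MP_0d0865_co.AG.Tra

/-!
# Sub: every subspace of dimension 1 or 2

PROOF. For a submodule `U` of rank 1 or 2 there is a linear equivalence `ZMod p ≃ U` or `ZMod p × ZMod p ≃ U`
(`LinearEquiv.ofFinrankEq`), so `Dec p U (Spn p)` by `Dec.equiv`.
-/

set_option autoImplicit false

namespace Pool.Agent.H.MP_0d0865_co.AG

variable {p : ℕ} [Fact p.Prime] {V : Type} [AddCommGroup V] [Module (ZMod p) V] [DecidableEq V]
  [Finite V]

theorem dec_sub (h1 : Dec p (ZMod p) (Spn p)) (h2 : Dec p (ZMod p × ZMod p) (Spn p))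
    (U : Submodule (ZMod p) V)
    (hU : Module.finrank (ZMod p) U = 1 ∨ Module.finrank (ZMod p) U = 2) :
    Dec p U (Spn p) := by
  rcases hU with hU | hU
  · have e : ZMod p ≃ₗ[ZMod p] U := LinearEquiv.ofFinrankEq _ _ (by
      rw [Module.finrank_self, hU])
    exact Dec.equiv e h1
  · have e : (ZMod p × ZMod p) ≃ₗ[ZMod p] U := LinearEquiv.ofFinrankEq _ _ (by
      rw [Module.finrank_prod, Module.finrank_self, hU])
    exact Dec.equiv e h2

end Pool.Agent.H.MP_0d0865_co.AG
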