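import Pool.Agent.H.MP_0d0865_co.AG.Def

/-!
# Tra: images of sets, the dimension of the directions

PROOF. `dir_image`: the set of differences of the image of `s` under `u ↦ w + L u` is the image under `L` of the
set of differences; `Submodule.map_span`. `T3_image`: `Finset.image_insert`, `Finset.image_singleton`.
`Dec.equiv`: compose `φ i` with `e` (`Equiv.trans`); a set `s'` of `V'` is the image under `e` of
`s'.image e.symm`; `Spn` is preserved by `dir_image` (`w = 0`, `e` linear and bijective: `map ⊤ = ⊤`) and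
`Finset.card_image_of_injective`. `dir_rank`: `s = {a, b, c}` (`Finset.card_eq_three`), `dir p s` is the span of
`b - a` and `c - a` (so its rank is at most 2), and it contains `b - a ≠ 0` (so it is at least 1).
-/

set_option autoImplicit false

namespace Pool.Agent.H.MP_0d0865_co.AG

variable {p : ℕ} [Fact p.Prime] {V V' : Type} [AddCommGroup V] [Module (ZMod p) V]
  [AddCommGroup V'] [Module (ZMod p) V'] [DecidableEq V] [DecidableEq V']

theorem dir_image (L : V →ₗ[ZMod p] V') (w : V') (s : Finset V) :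
    dir p (s.image fun u => w + L u) = (dir p s).map L := by
  unfold dir
  rw [Submodule.map_span]
  congr 1
  ext v
  simp only [Set.mem_ofPred_eq, Set.mem_image, Finset.mem_image]
  constructor
  · rintro ⟨_, ⟨x, hx, rfl⟩, _, ⟨y, hy, rfl⟩, rfl⟩
    exact ⟨x - y, ⟨x, hx, y, hy, rfl⟩, by rw [map_sub]; abel⟩
  · rintro ⟨_, ⟨x, hx, y, hy, rfl⟩, rfl⟩
    exact ⟨_, ⟨x, hx, rfl⟩, _, ⟨y, hy, rfl⟩, by rw [map_sub]; abel⟩

omit [Fact p.Prime] [AddCommGroup V] [Module (ZMod p) V] [AddCommGroup V'] [Module (ZMod p) V'] in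
theorem T3_image {A B : Type} (φ : A × ZMod p → V) (g : V → V') (ψ : B × ZMod p → V') (a : A) (b : B)
    (x : ZMod p) (h : ∀ y, ψ (b, y) = g (φ (a, y))) : T3 ψ (b, x) = (T3 φ (a, x)).image g := by
  show ({ψ (b, x), ψ (b, x + 1), ψ (b, x + 2)} : Finset V') =
    ({φ (a, x), φ (a, x + 1), φ (a, x + 2)} : Finset V).image g
  rw [Finset.image_insert, Finset.image_insert, Finset.image_singleton, h, h, h]

private theorem Tra_im {X Y : Type} [DecidableEq X] [DecidableEq Y] {f : X → Y} {g : Y → X}
    (h : ∀ x, f (g x) = x) (s : Finset Y) : (s.image g).image f = s := by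
  rw [Finset.image_image]
  have h1 : f ∘ g = id := funext h
  rw [h1, Finset.image_id]

private theorem Tra_spn (e : V ≃ₗ[ZMod p] V') {s : Finset V} (h : Spn p s) :
    Spn p (s.image e) := by
  refine ⟨by rw [Finset.card_image_of_injective _ e.injective]; exact h.1, ?_⟩
  have h1 : s.image e = s.image fun u => (0 : V') + (e : V →ₗ[ZMod p] V') u := by
    congr 1
    funext u
    rw [zero_add]
    rfl
  rw [h1, dir_image, h.2, Submodule.map_top]
  exact LinearMap.range_eq_top.2 e.surjective

theorem Dec.equiv (e : V ≃ₗ[ZMod p] V') (h : Dec p V (Spn p)) : Dec p V' (Spn p) := by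
  obtain ⟨I, iI, A, iA, φ, h1, h2⟩ := h
  have hT : ∀ i q, T3 ((φ i).trans e.toEquiv) q = (T3 (φ i) q).image e := fun i q =>
    T3_image (φ i) e _ q.1 q.1 q.2 fun y => rfl
  refine ⟨I, iI, A, iA, fun i => (φ i).trans e.toEquiv, ?_, ?_⟩
  · intro i q
    rw [hT]
    exact Tra_spn e (h1 i q)
  · intro s hs
    obtain ⟨x, hx, hu⟩ := h2 _ (Tra_spn e.symm hs)
    refine ⟨x, ?_, fun y hy => hu y ?_⟩
    · show s = T3 ((φ x.1).trans e.toEquiv) x.2
      have hx' : s.image e.symm = T3 (φ x.1) x.2 := hx
      rw [hT, ← hx', Tra_im e.apply_symm_apply]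
    · show s.image e.symm = T3 (φ y.1) y.2
      have hy' : s = T3 ((φ y.1).trans e.toEquiv) y.2 := hy
      rw [hT] at hy'
      rw [hy', Tra_im e.symm_apply_apply]

theorem dir_rank {s : Finset V} (hs : s.card = 3) :
    Module.finrank (ZMod p) (dir p s) = 1 ∨ Module.finrank (ZMod p) (dir p s) = 2 := by
  obtain ⟨a, b, c, hab, hac, hbc, rfl⟩ := Finset.card_eq_three.1 hs
  have h1 : ∀ x ∈ ({a, b, c} : Finset V), x - a ∈
      Submodule.span (ZMod p) (({b - a, c - a} : Finset V) : Set V) := by
    intro x hx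
    simp only [Finset.mem_insert, Finset.mem_singleton] at hx
    rcases hx with rfl | rfl | rfl
    · rw [sub_self]
      exact Submodule.zero_mem _
    · exact Submodule.subset_span (by simp)
    · exact Submodule.subset_span (by simp)
  have h2 : dir p ({a, b, c} : Finset V) ≤
      Submodule.span (ZMod p) (({b - a, c - a} : Finset V) : Set V) := by
    unfold dir
    rw [Submodule.span_le]
    rintro _ ⟨x, hx, y, hy, rfl⟩
    have h3 : x - y = (x - a) - (y - a) := by abel
    rw [SetLike.mem_coe, h3]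
    exact Submodule.sub_mem _ (h1 x hx) (h1 y hy)
  have hfin : FiniteDimensional (ZMod p)
      (Submodule.span (ZMod p) (({b - a, c - a} : Finset V) : Set V)) :=
    FiniteDimensional.span_finset _ _
  have h4 : Module.finrank (ZMod p) (dir p ({a, b, c} : Finset V)) ≤ 2 :=
    (Submodule.finrank_mono h2).trans
      ((finrank_span_finset_le_card _).trans Finset.card_le_two)
  have hfin2 : FiniteDimensional (ZMod p) (dir p ({a, b, c} : Finset V)) :=
    Submodule.finiteDimensional_of_le h2
  have h5 : 0 < Module.finrank (ZMod p) (dir p ({a, b, c} : Finset V)) := by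
    rw [Module.finrank_pos_iff_exists_ne_zero]
    refine ⟨⟨b - a, Submodule.subset_span ⟨b, by simp, a, by simp, rfl⟩⟩, fun h => ?_⟩
    have h6 : b - a = 0 := congrArg Subtype.val h
    exact hab (sub_eq_zero.1 h6).symm
  omega

end Pool.Agent.H.MP_0d0865_co.AG
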